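import Pool.Agent.T6helper6.MB.Main

set_option autoImplicit false

/-!
# MP_2d6919_lc, Q1: answered affirmatively

Let `B` be a ccc complete Boolean algebra with a continuous outer measure `m`, all of whose
countably generated complete subalgebras admit measures. Then `B` admits a measure.

Idea of the proof. On a countably generated complete subalgebra `S` a measure `f` and `m` are
mutually absolutely continuous. The countably generated complete subalgebras are countably
directed, so one can find, one constraint after the other, a single pair of moduli of absolute
continuity such that each `S` carries, for every `n`, a normalized measure that satisfies the first
`n` constraints. A limit of such measures along an ultrafilter is finitely additive and satisfies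
all constraints; hence it is strictly positive and, `m` being continuous, countably additive.

The definitions are in `Pool/Agent/T6helper6/MB/Defs.lean`.
-/

namespace Pool.Agent.Results.MP_2d6919_lc.OuterMeasureToMeasure

open Pool.Agent.T6helper6.MB

universe u

/-- Let `B` be a ccc complete Boolean algebra such that every countably generated complete
subalgebra of `B` admits a measure. If `B` admits a continuous outer measure, then `B` admits a
measure. -/
theorem result (B : Type u) [CompleteBooleanAlgebra B] (_hccc : CCC B)
    (hsub : ∀ S : BooleanSubalgebra B, CountablyGenerated S → ∃ μ : S → ℝ, IsMeasure μ)
    (hm : ∃ m : B → ℝ, IsContOuter m) : ∃ μ : B → ℝ, IsMeasure μ := by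
  obtain ⟨m, hm⟩ := hm
  exact main hsub m hm

end Pool.Agent.Results.MP_2d6919_lc.OuterMeasureToMeasure
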